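import Mathlib
import Pool.Agent.MP_eddcad_an.h24.Ends

set_option autoImplicit false

namespace Pool.Agent.Results.MP_eddcad_an.DruryArveson

open Pool.Agent.MP_eddcad_an

/-- A proper rational map of degree `d` with positive semidefinite kernel
`(1 - ⟨f z, f w⟩) / (1 - ⟨z, w⟩)` is joined to a proper polynomial map of degree `d` by proper
rational maps of degree at most `d` that depend continuously on the parameter up to the sphere. -/
theorem result : ∀ (n N d : ℕ), 0 < n → ∀ f : (Fin n → ℂ) → (Fin N → ℂ),
    IsProperHol f → IsLeast {e : ℕ | RatDegLE f e} d → KernelPSD f →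
    ∃ g : Fin N → MvPolynomial (Fin n) ℂ,
      (∀ j, (g j).totalDegree ≤ d) ∧ (∃ j, (g j).totalDegree = d) ∧
      IsProperHol (fun z j => MvPolynomial.eval z (g j)) ∧
      StrongHomotopic d f (fun z j => MvPolynomial.eval z (g j)) :=
  fun _ _ _ hn _ hf hd hK => H24.da_homotopy' hn hf hd hK

end Pool.Agent.Results.MP_eddcad_an.DruryArveson
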