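import Mathlib
import Pool.Agent.MP_eddcad_an.Mono
import Pool.Agent.MP_eddcad_an.h49.Exp

set_option autoImplicit false

namespace Pool.Agent.Results.MP_eddcad_an.ExpRange

open Pool.Agent.MP_eddcad_an

/-- A proper rational map of degree `d` is homotopic through proper maps to a proper polynomial
map of degree `d` when `N ≤ C(n + s - 2, s) + 1` for some `s ≥ 3` with `2 s (s - 1) + 2 ≤ n`
(any `d`), or `3 ≤ n` and `N ≤ C(n + 1, 3)` (any `d`), or `d (n - 1) + 1 ≤ N`, or `n = 2` and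
`d ≤ 2 N - 3`. -/
theorem result : ∀ (n N d : ℕ), 0 < n → ∀ f : (Fin n → ℂ) → (Fin N → ℂ),
    IsProperHol f → IsLeast {e : ℕ | RatDegLE f e} d →
    ((∃ s : ℕ, 3 ≤ s ∧ 2 * s * (s - 1) + 2 ≤ n ∧ N ≤ (n + s - 2).choose s + 1) ∨
      (3 ≤ n ∧ N ≤ (n + 1).choose 3) ∨ d * (n - 1) + 1 ≤ N ∨ (n = 2 ∧ d + 3 ≤ 2 * N)) →
    ∃ g : Fin N → MvPolynomial (Fin n) ℂ,
      (∀ j, (g j).totalDegree ≤ d) ∧ (∃ j, (g j).totalDegree = d) ∧
      IsProperHol (fun z j => MvPolynomial.eval z (g j)) ∧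
      ProperHomotopic f (fun z j => MvPolynomial.eval z (g j)) := by
  intro n N d hn f hf hd h
  have hd1 : 1 ≤ d := by
    rcases Nat.eq_zero_or_pos d with h0 | h0
    · exact absurd (h0 ▸ hd.1) (deg_pos hn hf)
    · exact h0
  have h' : d * (n - 1) + 1 ≤ N ∨ (n = 2 ∧ d + 3 ≤ 2 * N) := by
    rcases h with ⟨s, h1, h2, h3⟩ | h | h
    · exact Or.inl (h49.degree_bound h1 h2 hf hd h3)
    · exact Or.inl (H52.degree_bound h.1 hf hd h.2)
    · exact h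
  obtain ⟨g, h1, h2, h3⟩ := polyDeg_of_range hn hd1 h'
  refine ⟨g, h1, h2, h3, one_class hn hf hd.1 h3 (e' := d) ⟨g, 1, h1, by simp, ?_⟩⟩
  intro z _
  simp

end Pool.Agent.Results.MP_eddcad_an.ExpRange
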