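import Mathlib
import Pool.Agent.MP_eddcad_an.h43.Range

set_option autoImplicit false

namespace Pool.Agent.Results.MP_eddcad_an.GrowthRange

open Pool.Agent.MP_eddcad_an

/-- The number of monomials of degree `k` in `n` variables. -/
def dimS (n k : ℕ) : ℕ := (n + k - 1).choose k

/-- The number of target dimensions that one block of degree `a * dimS n j` adds. -/
def cost (n j a : ℕ) : ℕ :=
  min (dimS n (j + a) + dimS n j ^ 2 - (dimS n (2 * j) + dimS n j))
    (dimS n (j + a) + n * ∑ b ∈ Finset.range j, dimS n (j + b))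

/-- In the stated range of `(n, N, d)` there is a proper polynomial map of degree exactly `d` from
the ball of `ℂ^n` to the ball of `ℂ^N`, and every proper rational map between these balls is
homotopic to it through proper maps. -/
theorem result : ∀ n N d : ℕ, 1 ≤ n → 1 ≤ d →
    ((16 ^ n * d) ^ (n * (n - 1)) ≤ N ^ (n * (n - 1) + 1) ∨
      (n = 2 ∧ (27 * d ^ 2 ≤ 4 * N ^ 3 ∨ ∃ k : ℕ, 2 * d + k ^ 3 + 7 * k ^ 2 ≤ 2 * k * N)) ∨
      ∃ (k t : ℕ) (j a : Fin t → ℕ), (k = 0 ∨ n = 2) ∧ (∀ i, j i ≤ a i) ∧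
        d = 22 * k + ∑ i, a i * dimS n (j i) ∧ 11 * k + 1 + ∑ i, cost n (j i) (a i) ≤ N) →
    ∃ g : Fin N → MvPolynomial (Fin n) ℂ,
      (∀ s, (g s).totalDegree ≤ d) ∧ (∃ s, (g s).totalDegree = d) ∧
      IsProperHol (fun z s => MvPolynomial.eval z (g s)) ∧
      IsLeast {e : ℕ | RatDegLE (fun z s => MvPolynomial.eval z (g s)) e} d ∧
      ∀ f : (Fin n → ℂ) → (Fin N → ℂ), IsProperHol f → (∃ e : ℕ, RatDegLE f e) →
        ProperHomotopic f (fun z s => MvPolynomial.eval z (g s)) := by
  intro n N d hn hd h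
  have key : PolyDeg n N d := by
    rcases h with h | ⟨rfl, h | ⟨k, h⟩⟩ | ⟨k, t, j, a, hk, hja, h1, h2⟩
    · exact h43.polyDeg_growth hn hd h
    · exact h19.polyDeg_pow hd h
    · exact h43.polyDeg_two hd h
    · have h0 : h49.Sph n (11 * k + 1) (22 * k) := by
        rcases hk with rfl | rfl
        · exact h49.sph_one n
        · exact h19.sph_ico k
      have h3 : ∀ i, h49.Sph n (cost n (j i) (a i) + 1) (a i * dimS n (j i)) := by
        intro i
        rw [cost]
        rcases min_choice (dimS n (j i + a i) + dimS n (j i) ^ 2 -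
          (dimS n (2 * j i) + dimS n (j i))) (dimS n (j i + a i) +
            n * ∑ b ∈ Finset.range (j i), dimS n (j i + b)) with e | e <;> rw [e]
        · obtain ⟨c, h4, h5⟩ := h19.sph_block hn (hja i)
          exact h5.mono (Nat.succ_le_succ (Nat.le_sub_of_add_le h4))
        · exact h43.sph_block hn (hja i)
      have h4 := h43.sph_sum h0 t _ _ h3
      rw [← h1] at h4
      exact (h4.mono (by omega)).polyDeg hn hd
  obtain ⟨g, h1, h2, h3⟩ := key
  refine ⟨g, h1, h2, h3, ⟨h17.ratDegLE_poly h1, fun e he => h49.le_of_ratDegLE hd h2 he⟩, ?_⟩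
  rintro f hf ⟨e, he⟩
  exact one_class hn hf he h3 (h17.ratDegLE_poly h1)

end Pool.Agent.Results.MP_eddcad_an.GrowthRange
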