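import Mathlib
import Pool.Agent.MP_eddcad_an.h43s.Main

set_option autoImplicit false

namespace Pool.Agent.Results.MP_eddcad_an.StrongRange

open Pool.Agent.MP_eddcad_an

/-- In the range of dimensions given by the three conditions, every proper rational map of degree
`d` is joined to a proper polynomial map of degree `d` by proper rational maps of degree at most
`d` that depend continuously on the parameter up to the sphere. -/
theorem result : ∀ (n N κ d : ℕ),
    ((κ - 1).choose 2 + 1 < n ∨ ∃ m : ℕ, κ < (m + 1).choose 2 ∧ m * κ + 1 < n) →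
    N + 1 < (κ + 1) * (n + 1 - κ) → N + 1 < (n + 1 - 2 * κ).choose 2 →
    ∀ f : (Fin n → ℂ) → (Fin N → ℂ), IsProperHol f → IsLeast {e : ℕ | RatDegLE f e} d →
    ∃ g : Fin N → MvPolynomial (Fin n) ℂ,
      (∀ j, (g j).totalDegree ≤ d) ∧ (∃ j, (g j).totalDegree = d) ∧
      IsProperHol (fun z j => MvPolynomial.eval z (g j)) ∧
      StrongHomotopic d f (fun z j => MvPolynomial.eval z (g j)) :=
  fun _ _ _ _ h1 h2 h3 _ hf hd =>
    H24.da_homotopy' (by omega) hf hd (H43s.kernelPSD_strong hf hd.1 h1 h2 h3)

end Pool.Agent.Results.MP_eddcad_an.StrongRange
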